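import Pool.Agent.Helper50.EngelB

set_option autoImplicit false

namespace Pool.Agent.Results.MP_0cb9ae_al.CharTwoSections

/-- If a group `G` satisfies the law `[x,_r y] = [x,_s y]` for some `s > r`, then no section
(quotient of a subgroup) of `G` is isomorphic to `SL_2(F)` with `F` a finite field of
characteristic two having more than `2 ^ (r (r - 1) / 2)` elements. -/
theorem result (r : ℕ) (G : Type*) [Group G]
    (hG : ∃ s : ℕ, r < s ∧ ∀ x y : G,
      (fun z => z⁻¹ * y⁻¹ * z * y)^[r] x = (fun z => z⁻¹ * y⁻¹ * z * y)^[s] x)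
    (F : Type*) [Field F] [Fintype F] [CharP F 2]
    (H : Subgroup G) (π : H →* Matrix.SpecialLinearGroup (Fin 2) F)
    (hπ : Function.Surjective π) :
    Fintype.card F ≤ 2 ^ (r * (r - 1) / 2) := by
  obtain ⟨s, hrs, hG⟩ := hG
  by_contra hlt
  push Not at hlt
  obtain ⟨k, hp, hk⟩ := FiniteField.card F 2
  have hk' : Fintype.card F = 2 ^ (k : ℕ) := hk
  rw [hk'] at hlt
  have hlt' : r * (r - 1) / 2 < (k : ℕ) := (Nat.pow_lt_pow_iff_right (by norm_num)).1 hlt
  -- transfer of the law
  have hiter : ∀ (n : ℕ) (x y : H),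
      ((fun z : G => z⁻¹ * (y : G)⁻¹ * z * (y : G))^[n] (x : G)) =
        (((fun z : H => z⁻¹ * y⁻¹ * z * y)^[n] x : H) : G) := by
    intro n x y
    induction n with
    | zero => rfl
    | succ n ih =>
      rw [Function.iterate_succ_apply', Function.iterate_succ_apply', ih]
      simp
  have hiter2 : ∀ (n : ℕ) (x y : H),
      π ((fun z : H => z⁻¹ * y⁻¹ * z * y)^[n] x) =
        (fun z => z⁻¹ * (π y)⁻¹ * z * (π y))^[n] (π x) := by
    intro n x y
    induction n with
    | zero => rfl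
    | succ n ih =>
      rw [Function.iterate_succ_apply', Function.iterate_succ_apply', ← ih]
      simp
  have hSL : ∀ a b : ℕ, (∀ x y : G, (fun z => z⁻¹ * y⁻¹ * z * y)^[a] x =
      (fun z => z⁻¹ * y⁻¹ * z * y)^[b] x) →
      ∀ x y : Matrix.SpecialLinearGroup (Fin 2) F,
        (fun z => z⁻¹ * y⁻¹ * z * y)^[a] x = (fun z => z⁻¹ * y⁻¹ * z * y)^[b] x := by
    intro a b hab x y
    obtain ⟨x', rfl⟩ := hπ x
    obtain ⟨y', rfl⟩ := hπ y
    rw [← hiter2, ← hiter2]
    congr 1
    apply Subtype.ext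
    rw [← hiter, ← hiter]
    exact hab _ _
  rcases Nat.eq_zero_or_pos r with h0 | h0
  · subst h0
    obtain ⟨x, y, hxy⟩ := Pool.Agent.Helper50.Engel.not_law (F := F) (k := k) (r := 1) hk'
      one_pos (by simpa using k.pos)
    refine hxy (s + 1) (by omega) (hSL 1 (s + 1) ?_ x y)
    intro x y
    rw [Function.iterate_succ_apply', Function.iterate_succ_apply', Function.iterate_zero,
      ← hG x y]
    rfl
  · obtain ⟨x, y, hxy⟩ := Pool.Agent.Helper50.Engel.not_law (F := F) hk' h0 hlt'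
    exact hxy s hrs (hSL r s hG x y)

end Pool.Agent.Results.MP_0cb9ae_al.CharTwoSections
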