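import Pool.Agent.Helper8.SUZ.Final
import Pool.Agent.Helper8.SUZ.PslTwo

/-!
Sections `PSL_2(q)` and `Sz(q)` of groups with the law `[x,_r y] = [x,_s y]`.
-/

set_option autoImplicit false

universe u v

namespace Pool.Agent.Results.MP_0cb9ae_al.PSLTwoSuzukiSections

open Pool.Agent.Helper8.SUZ Pool.Agent.Helper96.Eng

/-- The law `[x,_r y] = [x,_s y]`, for some `s > r`. -/
def Law (r : ℕ) (G : Type v) [Group G] : Prop :=
  ∃ s : ℕ, r < s ∧ ∀ x y : G,
    (fun z => z⁻¹ * y⁻¹ * z * y)^[r] x = (fun z => z⁻¹ * y⁻¹ * z * y)^[s] x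

/-- A vector with four entries. -/
def row {F : Type u} (x y z w : F) : Fin 4 → F := ![x, y, z, w]

/-- The matrix with the given rows. -/
def mat {F : Type u} (r0 r1 r2 r3 : Fin 4 → F) : Matrix (Fin 4) (Fin 4) F :=
  Matrix.of ![r0, r1, r2, r3]

/-- Suzuki's lower unitriangular matrix `S(a, b)`, with `th x = x ^ (2 ^ (n + 1))`. -/
def matS {F : Type u} [Field F] (th : F → F) (a b : F) : Matrix (Fin 4) (Fin 4) F :=
  mat (row 1 0 0 0) (row a 1 0 0) (row b (th a) 1 0)
    (row (th a * a ^ 2 + a * b + th b) (th a * a + b) a 1)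

/-- Suzuki's diagonal matrix, with entries `th m * m, m, m⁻¹, (th m * m)⁻¹`. -/
def matD {F : Type u} [Field F] (th : F → F) (m : F) : Matrix (Fin 4) (Fin 4) F :=
  mat (row (th m * m) 0 0 0) (row 0 m 0 0) (row 0 0 m⁻¹ 0) (row 0 0 0 (th m * m)⁻¹)

/-- The antidiagonal permutation matrix. -/
def matW {F : Type u} [Field F] : Matrix (Fin 4) (Fin 4) F :=
  mat (row 0 0 0 1) (row 0 0 1 0) (row 0 1 0 0) (row 1 0 0 0)

/-- The Suzuki group over a field `F` with `2 ^ (2 * n + 1)` elements: the group generated by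
Suzuki's matrices in the general linear group of degree four. -/
def Suzuki (F : Type u) [Field F] (n : ℕ) : Subgroup (Matrix (Fin 4) (Fin 4) F)ˣ :=
  Subgroup.closure {g | (∃ a b, g.val = matS (fun x => x ^ (2 ^ (n + 1))) a b) ∨
    (∃ m, m ≠ 0 ∧ g.val = matD (fun x => x ^ (2 ^ (n + 1))) m) ∨ g.val = matW}

theorem suzuki_eq (F : Type u) [Field F] (n : ℕ) :
    Suzuki F n = Sz (fun x : F => x ^ (2 ^ (n + 1))) := rfl

/-- `G` has a section (a quotient of a subgroup) isomorphic to `T`. -/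
def IsSection (T : Type u) [Group T] (G : Type v) [Group G] : Prop :=
  ∃ (H : Subgroup G) (π : H →* T), Function.Surjective π

/-- `G` has a section isomorphic to `PSL_2(F)` or to the Suzuki group over `F`, for a finite
field `F` with more than `Q` elements. -/
def HasSection (Q : ℕ) (G : Type v) [Group G] : Prop :=
  ∃ (F : Type u) (_ : Field F) (_ : Fintype F), Q < Fintype.card F ∧
    (IsSection (Matrix.ProjectiveSpecialLinearGroup (Fin 2) F) G ∨
      ∃ n : ℕ, Fintype.card F = 2 ^ (2 * n + 1) ∧ IsSection (Suzuki F n) G)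

theorem main (r : ℕ) : ∃ Q : ℕ, ∀ (G : Type v) [Group G], Law r G → ¬ HasSection.{u} Q G := by
  obtain ⟨Q1, h1⟩ := psl_two.{u, v} r
  obtain ⟨Q2, h2⟩ := sz_main.{u} r
  refine ⟨max Q1 Q2, fun G _ hG => ?_⟩
  rintro ⟨F, _, _, hlt, ⟨H, π, hπ⟩ | ⟨n, hcard, H, π, hπ⟩⟩
  · exact absurd (h1 G hG F H π hπ) (not_le.2 (lt_of_le_of_lt (le_max_left _ _) hlt))
  · obtain ⟨x, y, hxy⟩ := h2 F n hcard (lt_of_le_of_lt (le_max_right _ _) hlt)
    obtain ⟨s, hrs, hl⟩ := hG
    exact transfer2 r s x y (hxy s hrs) G hl H π hπ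

/-- For every `r` there is `Q` such that no group satisfying `[x,_r y] = [x,_s y]` for some
`s > r` has a section `PSL_2(F)` or `Sz(F)` with `F` a finite field of more than `Q` elements.
Hence, if every finite nonabelian simple group of large order has such a section with `F` large,
then for every `r` only finitely many finite nonabelian simple groups satisfy such a law. -/
theorem result :
    (∀ r : ℕ, ∃ Q : ℕ, ∀ (G : Type v) [Group G], Law r G → ¬ HasSection.{u} Q G) ∧
    ((∀ Q : ℕ, ∃ N : ℕ, ∀ (S : Type) [Group S] [Finite S], IsSimpleGroup S →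
        (∃ a b : S, a * b ≠ b * a) → N < Nat.card S → HasSection.{0} Q S) →
      ∀ r : ℕ, ∃ N : ℕ, ∀ (G : Type) [Group G] [Finite G], IsSimpleGroup G →
        (∃ a b : G, a * b ≠ b * a) → Law r G → Nat.card G ≤ N) := by
  refine ⟨main, fun h r => ?_⟩
  obtain ⟨Q, hQ⟩ := main.{0, 0} r
  obtain ⟨N, hN⟩ := h Q
  refine ⟨N, fun G _ _ hs hna hG => ?_⟩
  by_contra hlt
  exact hQ G hG (hN G hs hna (not_le.1 hlt))

end Pool.Agent.Results.MP_0cb9ae_al.PSLTwoSuzukiSections
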